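import Pool.Agent.Work.MP_88b7aa_gt.P2.Tits
import Pool.Agent.Work.MP_88b7aa_gt.CH.Disc
import Pool.Agent.Work.MP_88b7aa_gt.CH.Rep
import Pool.Agent.Work.MP_88b7aa_gt.CH.EllA
import Pool.Agent.Work.MP_88b7aa_gt.CH.Crs

/-!
# The triangle groups with `p = 2`

For `p = 2` the vectors `n 1` and `n 2` are orthogonal and the representation is conjugate to the geometric representation of the Coxeter
group. It is discrete and faithful, and `W_A` is elliptic.
-/

set_option autoImplicit false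

namespace Pool.Agent.Work.MP_88b7aa_gt.P2

open Pool.Agent.Work.MP_88b7aa_gt.CH
open ComplexConjugate Complex

theorem refl_rel2 (n n' : Fin 3 → ℂ) (hn : herm n n = 1) (hn' : herm n' n' = 1) (h : herm n n' = 0) : (refl n * refl n') ^ 2 = 1 := by
  have h' : herm n' n = 0 := by
    rw [← herm_conj, h, map_zero]
  have e1 : relP n * relP n' = 0 := by rw [relP_mul, h', mul_zero, zero_smul]
  have e2 : relP n' * relP n = 0 := by rw [relP_mul, h, mul_zero, zero_smul]
  have e3 := relP_sq n hn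
  have e4 := relP_sq n' hn'
  have e5 : refl n * refl n' = 1 - relP n - relP n' := by
    rw [refl_eq_relP, refl_eq_relP, sub_mul, mul_sub, mul_sub, e1]
    simp only [mul_one, one_mul]
    abel
  rw [e5, pow_two, sub_mul, sub_mul, mul_sub, mul_sub, mul_sub, mul_sub, mul_sub, mul_sub, e1, e2, e3, e4]
  simp only [mul_one, one_mul, two_smul]
  abel

/-- The representation and its version with determinant `-1` generators. -/
theorem Rep2 (q r : ℕ) (hq : 3 ≤ q) (hr : 3 ≤ r) (n : Fin 3 → Fin 3 → ℂ)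
    (hu : ∀ i, herm (n i) (n i) = 1) (h01 : ‖herm (n 0) (n 1)‖ = Real.cos (Real.pi / q))
    (h12 : herm (n 1) (n 2) = 0) (h20 : ‖herm (n 2) (n 0)‖ = Real.cos (Real.pi / r)) :
    ∃ ρ : (mcox 2 q r (by omega) (by omega) (by omega)).Group →* Matrix (Fin 3) (Fin 3) ℂ,
      (∀ i, ρ ((mcox 2 q r (by omega) (by omega) (by omega)).simple i) = refl (n i)) ∧
      ∃ σ : (mcox 2 q r (by omega) (by omega) (by omega)).Group →* Matrix (Fin 3) (Fin 3) ℂ,
        (∀ i, σ ((mcox 2 q r (by omega) (by omega) (by omega)).simple i) = -refl (n i)) ∧ ∀ g, ρ g = σ g ∨ ρ g = -σ g := by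
  have hsymm : ∀ z w : Fin 3 → ℂ, ‖herm w z‖ = ‖herm z w‖ := by
    intro z w
    rw [← herm_conj z w, Complex.norm_conj]
  have h10 : ‖herm (n 1) (n 0)‖ = Real.cos (Real.pi / q) := by rw [hsymm, h01]
  have h21 : herm (n 2) (n 1) = 0 := by rw [← herm_conj, h12, map_zero]
  have h02 : ‖herm (n 0) (n 2)‖ = Real.cos (Real.pi / r) := by rw [hsymm, h20]
  have hlift : (mcox 2 q r (by omega) (by omega) (by omega)).IsLiftable (fun i => refl (n i)) := by
    intro i j
    fin_cases i <;> fin_cases j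
    · simpa [mcox] using refl_sq (n 0) (hu 0)
    · exact refl_rel _ _ (hu 0) (hu 1) q hq h01
    · exact refl_rel _ _ (hu 0) (hu 2) r hr h02
    · exact refl_rel _ _ (hu 1) (hu 0) q hq h10
    · simpa [mcox] using refl_sq (n 1) (hu 1)
    · exact refl_rel2 _ _ (hu 1) (hu 2) h12
    · exact refl_rel _ _ (hu 2) (hu 0) r hr h20
    · exact refl_rel2 _ _ (hu 2) (hu 1) h21
    · simpa [mcox] using refl_sq (n 2) (hu 2)
  have hlift' : (mcox 2 q r (by omega) (by omega) (by omega)).IsLiftable (fun i => -refl (n i)) := by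
    intro i j
    have := hlift i j
    dsimp only at this ⊢
    rw [neg_mul_neg]
    exact this
  set cs := (mcox 2 q r (by omega) (by omega) (by omega)).toCoxeterSystem with hcs
  have hsimple : ∀ i, cs.lift ⟨_, hlift⟩
      ((mcox 2 q r (by omega) (by omega) (by omega)).simple i) = refl (n i) := by
    intro i
    have h := cs.lift_apply_simple hlift i
    rwa [hcs, CoxeterMatrix.toCoxeterSystem_simple] at h
  have hsimple' : ∀ i, cs.lift ⟨_, hlift'⟩
      ((mcox 2 q r (by omega) (by omega) (by omega)).simple i) = -refl (n i) := by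
    intro i
    have h := cs.lift_apply_simple hlift' i
    rwa [hcs, CoxeterMatrix.toCoxeterSystem_simple] at h
  refine ⟨cs.lift ⟨_, hlift⟩, hsimple, cs.lift ⟨_, hlift'⟩, hsimple', ?_⟩
  intro g
  refine cs.simple_induction_left (p := fun g => cs.lift ⟨_, hlift⟩ g = cs.lift ⟨_, hlift'⟩ g ∨
    cs.lift ⟨_, hlift⟩ g = -cs.lift ⟨_, hlift'⟩ g) g ?_ ?_
  · left
    rw [map_one, map_one]
  · intro g i ih
    have h := cs.lift_apply_simple hlift i
    have h' := cs.lift_apply_simple hlift' i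
    rw [map_mul, map_mul, h, h']
    rcases ih with ih | ih
    · right
      rw [ih, neg_mul, neg_neg]
    · left
      rw [ih, mul_neg, neg_mul]

/-- The open set: all `⟨z, n i⟩` in a common sector of angle `π / 2`. -/
def Sec (n : Fin 3 → Fin 3 → ℂ) : Set (Fin 3 → ℂ) :=
  {z | ∃ μ : ℂ, ‖μ‖ = 1 ∧ ∀ i, 0 < ((1 + I) * μ * herm z (n i)).re ∧ 0 < ((1 - I) * μ * herm z (n i)).re}

theorem herm_cont (w : Fin 3 → ℂ) : Continuous fun z : Fin 3 → ℂ => herm z w := by
  unfold herm
  fun_prop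

theorem Sec_open (n : Fin 3 → Fin 3 → ℂ) : IsOpen (Sec n) := by
  have e : Sec n = ⋃ μ : {μ : ℂ // ‖μ‖ = 1}, ⋂ i : Fin 3,
      ({z | 0 < ((1 + I) * μ.1 * herm z (n i)).re} ∩ {z | 0 < ((1 - I) * μ.1 * herm z (n i)).re}) := by
    ext z
    simp only [Sec, Set.mem_setOf_eq, Set.mem_iUnion, Set.mem_iInter, Set.mem_inter_iff, Subtype.exists]
    constructor
    · rintro ⟨μ, h1, h2⟩
      exact ⟨μ, h1, h2⟩
    · rintro ⟨μ, h1, h2⟩
      exact ⟨μ, h1, h2⟩
  rw [e]
  refine isOpen_iUnion fun μ => isOpen_iInter_of_finite fun i => IsOpen.inter ?_ ?_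
  · exact isOpen_lt continuous_const (Complex.continuous_re.comp (continuous_const.mul (herm_cont _)))
  · exact isOpen_lt continuous_const (Complex.continuous_re.comp (continuous_const.mul (herm_cont _)))

theorem Sec_smul (n : Fin 3 → Fin 3 → ℂ) {z : Fin 3 → ℂ} (hz : z ∈ Sec n) {c : ℂ} (hc : ‖c‖ = 1) : c • z ∈ Sec n := by
  obtain ⟨μ, h1, h2⟩ := hz
  have hc0 : c ≠ 0 := by
    rintro rfl
    simp at hc
  refine ⟨μ * c⁻¹, by rw [norm_mul, norm_inv, h1, hc]; norm_num, fun i => ?_⟩
  have e : ∀ x : ℂ, x * (μ * c⁻¹) * herm (c • z) (n i) = x * μ * herm z (n i) := by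
    intro x
    rw [herm_smul_left]
    field_simp
  rw [e, e]
  exact h2 i

/-- The key inequality for two complex numbers. -/
theorem sec_aux {u v μ ν : ℂ} (hμ : ‖μ‖ = 1) (hν : ‖ν‖ = 1) (h1 : ((1 + I) * μ * u).re < 0) (h2 : ((1 - I) * μ * u).re < 0)
    (h3 : 0 < ((1 + I) * μ * v).re) (h4 : 0 < ((1 - I) * μ * v).re) (g1 : 0 < ((1 + I) * ν * u).re) (g2 : 0 < ((1 - I) * ν * u).re)
    (g3 : 0 < ((1 + I) * ν * v).re) (g4 : 0 < ((1 - I) * ν * v).re) : False := by
  have hμ' : μ * conj μ = 1 := by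
    rw [Complex.mul_conj, Complex.normSq_eq_norm_sq, hμ]
    simp
  have hν' : ν * conj ν = 1 := by
    rw [Complex.mul_conj, Complex.normSq_eq_norm_sq, hν]
    simp
  have e1 : (μ * u) * conj (μ * v) = u * conj v := by
    rw [map_mul]
    linear_combination (u * conj v) * hμ'
  have e2 : (ν * u) * conj (ν * v) = u * conj v := by
    rw [map_mul]
    linear_combination (u * conj v) * hν'
  have r : ∀ w : ℂ, ((1 + I) * w).re = w.re - w.im ∧ ((1 - I) * w).re = w.re + w.im := by
    intro w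
    constructor <;> simp
  rw [mul_assoc, (r _).1] at h1 h3 g1 g3
  rw [mul_assoc, (r _).2] at h2 h4 g2 g4
  have k1 : (u * conj v).re = (μ * u).re * (μ * v).re + (μ * u).im * (μ * v).im := by
    rw [← e1]
    simp only [Complex.mul_re, Complex.conj_re, Complex.conj_im]
    ring
  have k2 : (u * conj v).re = (ν * u).re * (ν * v).re + (ν * u).im * (ν * v).im := by
    rw [← e2]
    simp only [Complex.mul_re, Complex.conj_re, Complex.conj_im]
    ring
  set a := (μ * u).re
  set a' := (μ * u).im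
  set b := (μ * v).re
  set b' := (μ * v).im
  set c := (ν * u).re
  set c' := (ν * u).im
  set d := (ν * v).re
  set d' := (ν * v).im
  have n1 : a * b + a' * b' < 0 := by nlinarith [mul_pos (neg_pos.mpr h1) h3, mul_pos (neg_pos.mpr h2) h4, mul_pos (neg_pos.mpr h1) h4, mul_pos (neg_pos.mpr h2) h3]
  have n2 : 0 < c * d + c' * d' := by nlinarith [mul_pos g1 g3, mul_pos g2 g4]
  linarith

/-- Discrete and faithful, for a real Gram matrix. -/
theorem df_real (q r : ℕ) (hq : 3 ≤ q) (hr : 3 ≤ r) (n : Fin 3 → Fin 3 → ℂ) (hu : ∀ i, herm (n i) (n i) = 1)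
    (h01 : herm (n 0) (n 1) = -(Real.cos (Real.pi / q) : ℂ)) (h12 : herm (n 1) (n 2) = 0)
    (h20 : herm (n 2) (n 0) = -(Real.cos (Real.pi / r) : ℂ))
    (hd : 1 - Real.cos (Real.pi / q) ^ 2 - Real.cos (Real.pi / r) ^ 2 < 0) :
    DF (mcox 2 q r (by omega) (by omega) (by omega)) n := by
  have hpi := Real.pi_pos
  have cpos : ∀ m : ℕ, 3 ≤ m → 0 ≤ Real.cos (Real.pi / m) ∧ Real.cos (Real.pi / m) < 1 := by
    intro m hm
    have hm' : (3 : ℝ) ≤ m := by exact_mod_cast hm
    have h0 : 0 < Real.pi / m := by positivity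
    have h1 : Real.pi / m ≤ Real.pi / 3 := by
      apply div_le_div_of_nonneg_left hpi.le (by norm_num) hm'
    constructor
    · apply Real.cos_nonneg_of_neg_pi_div_two_le_of_le <;> linarith
    · have := Real.cos_lt_cos_of_nonneg_of_le_pi (x := 0) (y := Real.pi / m) le_rfl (by linarith) h0
      rwa [Real.cos_zero] at this
  obtain ⟨b0, b1⟩ := cpos q hq
  obtain ⟨c0, c1⟩ := cpos r hr
  set b := Real.cos (Real.pi / q) with hb
  set c := Real.cos (Real.pi / r) with hc
  have h10 : herm (n 1) (n 0) = -(b : ℂ) := by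
    rw [← herm_conj, h01, map_neg, Complex.conj_ofReal]
  have h21 : herm (n 2) (n 1) = 0 := by rw [← herm_conj, h12, map_zero]
  have h02 : herm (n 0) (n 2) = -(c : ℂ) := by
    rw [← herm_conj, h20, map_neg, Complex.conj_ofReal]
  have hrep := Rep2 q r hq hr n hu (by rw [h01, norm_neg, Complex.norm_real, Real.norm_of_nonneg b0]) h12
    (by rw [h20, norm_neg, Complex.norm_real, Real.norm_of_nonneg c0])
  set M := mcox 2 q r (by omega) (by omega) (by omega) with hM
  obtain ⟨ρ, hρ, σ, hσ, hρσ⟩ := hrep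
  set G : Fin 3 → Fin 3 → ℝ := fun i j => (herm (n i) (n j)).re with hG
  have hGr : ∀ i j, herm (n i) (n j) = (G i j : ℂ) := by
    intro i j
    rw [hG]
    fin_cases i <;> fin_cases j <;> simp [hu, h01, h12, h20, h10, h21, h02]
  have hm2 : ∀ i j : Fin 3, i ≠ j → 2 ≤ M i j := by
    intro i j hij
    fin_cases i <;> fin_cases j <;> first | exact absurd rfl hij | skip
    · show 2 ≤ q; omega
    · show 2 ≤ r; omega
    · show 2 ≤ q; omega
    · show 2 ≤ 2; omega
    · show 2 ≤ r; omega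
    · show 2 ≤ 2; omega
  have hoff : ∀ i j : Fin 3, i ≠ j → G i j = -Real.cos (Real.pi / M i j) := by
    intro i j hij
    rw [hG]
    fin_cases i <;> fin_cases j <;> first | exact absurd rfl hij | skip
    · show (herm (n 0) (n 1)).re = -Real.cos (Real.pi / (q : ℕ))
      rw [h01, Complex.neg_re, Complex.ofReal_re]
    · show (herm (n 0) (n 2)).re = -Real.cos (Real.pi / (r : ℕ))
      rw [h02, Complex.neg_re, Complex.ofReal_re]
    · show (herm (n 1) (n 0)).re = -Real.cos (Real.pi / (q : ℕ))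
      rw [h10, Complex.neg_re, Complex.ofReal_re]
    · show (herm (n 1) (n 2)).re = -Real.cos (Real.pi / ((2 : ℕ) : ℝ))
      rw [h12]
      simp
    · show (herm (n 2) (n 0)).re = -Real.cos (Real.pi / (r : ℕ))
      rw [h20, Complex.neg_re, Complex.ofReal_re]
    · show (herm (n 2) (n 1)).re = -Real.cos (Real.pi / ((2 : ℕ) : ℝ))
      rw [h21]
      simp
  have hT : TAct M.toCoxeterSystem (fun g z => (σ g).mulVec z) (fun i z => (herm z (n i)).re) G := by
    refine ⟨fun x => ?_, fun g h x => ?_, fun i j x => ?_, fun i => ?_, hoff, hm2⟩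
    · rw [map_one, Matrix.one_mulVec]
    · rw [map_mul, Matrix.mulVec_mulVec]
    · have e : (σ (M.toCoxeterSystem.simple i)).mulVec x = x + (-(2 * herm x (n i))) • n i := by
        rw [CoxeterMatrix.toCoxeterSystem_simple, hσ, Matrix.neg_mulVec, refl_mulVec, neg_smul, neg_add, neg_neg]
      rw [e, herm_add_left, herm_smul_left, hGr i j]
      simp only [Complex.add_re, Complex.mul_re, Complex.neg_re, Complex.neg_im, Complex.ofReal_re, Complex.ofReal_im, mul_zero, sub_zero]
      norm_num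
      ring
    · rw [hG]
      simp [hu]
  have hcm : ∀ (g : M.Group) (x : ℂ) (z : Fin 3 → ℂ), (σ g).mulVec (x • z) = x • (σ g).mulVec z := fun g x z => Matrix.mulVec_smul _ _ _
  -- the point
  set z0 : Fin 3 → ℂ := (-((1 + b + c : ℝ) : ℂ)) • n 0 + ((-((b + (1 - c ^ 2) + b * c : ℝ) : ℂ)) • n 1 +
    (-((c + b * c + (1 - b ^ 2) : ℝ) : ℂ)) • n 2) with hz0
  have hφ : ∀ i, herm z0 (n i) = ((b ^ 2 + c ^ 2 - 1 : ℝ) : ℂ) := by
    intro i
    rw [hz0, herm_add_left, herm_add_left, herm_smul_left, herm_smul_left, herm_smul_left]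
    fin_cases i
    · show -((1 + b + c : ℝ) : ℂ) * herm (n 0) (n 0) + (-((b + (1 - c ^ 2) + b * c : ℝ) : ℂ) * herm (n 1) (n 0) +
        -((c + b * c + (1 - b ^ 2) : ℝ) : ℂ) * herm (n 2) (n 0)) = _
      rw [hu, h10, h20]
      push_cast
      ring
    · show -((1 + b + c : ℝ) : ℂ) * herm (n 0) (n 1) + (-((b + (1 - c ^ 2) + b * c : ℝ) : ℂ) * herm (n 1) (n 1) +
        -((c + b * c + (1 - b ^ 2) : ℝ) : ℂ) * herm (n 2) (n 1)) = _
      rw [hu, h01, h21]
      push_cast
      ring
    · show -((1 + b + c : ℝ) : ℂ) * herm (n 0) (n 2) + (-((b + (1 - c ^ 2) + b * c : ℝ) : ℂ) * herm (n 1) (n 2) +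
        -((c + b * c + (1 - b ^ 2) : ℝ) : ℂ) * herm (n 2) (n 2)) = _
      rw [hu, h02, h12]
      push_cast
      ring
  refine Disc M n (hu 0) ρ hρ (Sec n) (Sec_open n) z0 ⟨1, by simp, fun i => ?_⟩ (fun z hz μ hμ => Sec_smul n hz hμ) ?_
  · rw [hφ]
    have : 0 < b ^ 2 + c ^ 2 - 1 := by linarith
    constructor
    · have e : ((1 + I) * 1 * ((b ^ 2 + c ^ 2 - 1 : ℝ) : ℂ)).re = b ^ 2 + c ^ 2 - 1 := by
        rw [mul_one, Complex.re_mul_ofReal]
        simp
      rw [e]
      exact this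
    · have e : ((1 - I) * 1 * ((b ^ 2 + c ^ 2 - 1 : ℝ) : ℂ)).re = b ^ 2 + c ^ 2 - 1 := by
        rw [mul_one, Complex.re_mul_ofReal]
        simp
      rw [e]
      exact this
  · intro g z hz hgz
    left
    by_contra hg
    have hgz' : (σ g).mulVec z ∈ Sec n := by
      rcases hρσ g with e | e
      · rwa [e] at hgz
      · rw [e, Matrix.neg_mulVec] at hgz
        have := Sec_smul n hgz (c := -1) (by simp)
        simpa using this
    obtain ⟨μ, hμ, h1⟩ := hz
    obtain ⟨ν, hν, h2⟩ := hgz'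
    have p1 : ∀ i, 0 < (herm (((1 + I) * μ) • z) (n i)).re := fun i => by
      rw [herm_smul_left]
      exact (h1 i).1
    have p2 : ∀ i, 0 < (herm (((1 - I) * μ) • z) (n i)).re := fun i => by
      rw [herm_smul_left]
      exact (h1 i).2
    have t1 := tits hT _ p1 g
    have t2 := tits hT _ p2 g
    obtain ⟨i, hi⟩ := M.toCoxeterSystem.exists_leftDescent_of_ne_one hg
    obtain ⟨j, hj⟩ := nonDesc hT _ p1 (a := 0) (b := b) (c := c) le_rfl b0 c0 one_pos b1 c1 (by rw [hG]; simp [h01]) (by rw [hG]; simp [h10])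
      (by rw [hG]; simp [h12]) (by rw [hG]; simp [h21]) (by rw [hG]; simp [h20]) (by rw [hG]; simp [h02]) (by nlinarith) g
    have a1 := (t1 i).1 hi
    have a2 := (t2 i).1 hi
    have a3 := (t1 j).2 hj
    have a4 := (t2 j).2 hj
    rw [hcm, herm_smul_left] at a1 a2 a3 a4
    exact sec_aux hμ hν a1 a2 a3 a4 (h2 i).1 (h2 i).2 (h2 j).1 (h2 j).2

/-- **The case `p = 2`.** -/
theorem two (q r : ℕ) (hq : 3 ≤ q) (hr : 3 ≤ r) (hqr : (1 : ℝ) / q + 1 / r < 1 / 2) (θ : ℝ) (n : Fin 3 → Fin 3 → ℂ)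
    (hT : IsTriangle 2 q r θ n) : DF (mcox 2 q r (by omega) (by omega) (by omega)) n ∧ Elliptic (WA n) := by
  have hpi := Real.pi_pos
  have hq0 : (0 : ℝ) < q := by
    have : 0 < q := by omega
    exact_mod_cast this
  have hr0 : (0 : ℝ) < r := by
    have : 0 < r := by omega
    exact_mod_cast this
  have hang : Real.pi / q + Real.pi / r < Real.pi / 2 := by
    have e : Real.pi / q + Real.pi / r = Real.pi * (1 / q + 1 / r) := by ring
    rw [e]
    nlinarith
  have hq1 : 0 < Real.pi / q := by positivity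
  have hr1 : 0 < Real.pi / r := by positivity
  have hcr : 0 < Real.cos (Real.pi / r) := Real.cos_pos_of_mem_Ioo ⟨by linarith, by linarith⟩
  have hcq : 0 < Real.cos (Real.pi / q) := Real.cos_pos_of_mem_Ioo ⟨by linarith, by linarith⟩
  have hsr : 0 < Real.sin (Real.pi / r) := Real.sin_pos_of_pos_of_lt_pi hr1 (by linarith)
  have hlt : Real.sin (Real.pi / r) < Real.cos (Real.pi / q) := by
    rw [← Real.cos_pi_div_two_sub]
    exact Real.cos_lt_cos_of_nonneg_of_le_pi (by linarith) (by linarith) (by linarith)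
  have hd : 1 - Real.cos (Real.pi / q) ^ 2 - Real.cos (Real.pi / r) ^ 2 < 0 := by
    have := Real.sin_sq_add_cos_sq (Real.pi / r)
    nlinarith
  have hz : Real.cos (Real.pi / ((2 : ℕ) : ℝ)) = 0 := by
    rw [show ((2 : ℕ) : ℝ) = 2 by norm_num, Real.cos_pi_div_two]
  have h12 : herm (n 1) (n 2) = 0 := by
    have := hT.h23
    rw [hz] at this
    exact norm_eq_zero.mp this
  refine ⟨?_, ?_⟩
  · -- normalisation
    have n01 : herm (n 0) (n 1) ≠ 0 := by
      intro h
      have := hT.h12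
      rw [h, norm_zero] at this
      linarith
    have n20 : herm (n 2) (n 0) ≠ 0 := by
      intro h
      have := hT.h31
      rw [h, norm_zero] at this
      linarith
    set ω1 : ℂ := conj (-(Real.cos (Real.pi / q) : ℂ) / herm (n 0) (n 1)) with hω1
    set ω2 : ℂ := -(Real.cos (Real.pi / r) : ℂ) / herm (n 2) (n 0) with hω2
    have u1 : ‖ω1‖ = 1 := by
      rw [hω1, Complex.norm_conj, norm_div, norm_neg, Complex.norm_real, Real.norm_of_nonneg hcq.le, hT.h12, div_self hcq.ne']
    have u2 : ‖ω2‖ = 1 := by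
      rw [hω2, norm_div, norm_neg, Complex.norm_real, Real.norm_of_nonneg hcr.le, hT.h31, div_self hcr.ne']
    set m : Fin 3 → Fin 3 → ℂ := ![n 0, ω1 • n 1, ω2 • n 2] with hm
    have hrefl : ∀ i, refl (m i) = refl (n i) := by
      intro i
      fin_cases i
      · rfl
      · exact refl_smul ω1 u1 (n 1)
      · exact refl_smul ω2 u2 (n 2)
    have hun : ∀ (ω : ℂ) (z : Fin 3 → ℂ), ‖ω‖ = 1 → herm (ω • z) (ω • z) = herm z z := by
      intro ω z hω
      rw [herm_smul_left, herm_smul_right]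
      have : ω * conj ω = 1 := by
        rw [Complex.mul_conj, Complex.normSq_eq_norm_sq, hω]
        simp
      linear_combination (herm z z) * this
    have hDF : DF (mcox 2 q r (by omega) (by omega) (by omega)) m := by
      refine df_real q r hq hr m ?_ ?_ ?_ ?_ hd
      · intro i
        fin_cases i
        · exact hT.unit 0
        · exact (hun ω1 (n 1) u1).trans (hT.unit 1)
        · exact (hun ω2 (n 2) u2).trans (hT.unit 2)
      · show herm (n 0) (ω1 • n 1) = _
        rw [herm_smul_right, hω1, Complex.conj_conj]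
        field_simp
      · show herm (ω1 • n 1) (ω2 • n 2) = _
        rw [herm_smul_left, herm_smul_right, h12, mul_zero, mul_zero]
      · show herm (ω2 • n 2) (n 0) = _
        rw [herm_smul_left, hω2]
        field_simp
    obtain ⟨ρ, h1, h2⟩ := hDF
    exact ⟨ρ, fun i => by rw [h1, hrefl], h2⟩
  · refine EllA 2 q r θ n hT ?_
    unfold fA
    rw [hz]
    have := Real.cos_sq_le_one (Real.pi / r)
    have h2 : Real.cos (Real.pi / r) ^ 2 < 1 := by
      have := Real.sin_sq_add_cos_sq (Real.pi / r)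
      nlinarith
    nlinarith

/-- The triangles exist for `p = 2`. -/
theorem ex2 (q r : ℕ) (hq : 3 ≤ q) (hr : 3 ≤ r) (hqr : (1 : ℝ) / q + 1 / r < 1 / 2) (θ : ℝ) : ∃ n, IsTriangle 2 q r θ n := by
  have hpi := Real.pi_pos
  have hq0 : (0 : ℝ) < q := by
    have : 0 < q := by omega
    exact_mod_cast this
  have hr0 : (0 : ℝ) < r := by
    have : 0 < r := by omega
    exact_mod_cast this
  have hang : Real.pi / q + Real.pi / r < Real.pi / 2 := by
    have e : Real.pi / q + Real.pi / r = Real.pi * (1 / q + 1 / r) := by ring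
    rw [e]
    nlinarith
  have hq1 : 0 < Real.pi / q := by positivity
  have hr1 : 0 < Real.pi / r := by positivity
  have hcr : 0 < Real.cos (Real.pi / r) := Real.cos_pos_of_mem_Ioo ⟨by linarith, by linarith⟩
  have hcq : 0 < Real.cos (Real.pi / q) := Real.cos_pos_of_mem_Ioo ⟨by linarith, by linarith⟩
  have hsr : 0 < Real.sin (Real.pi / r) := Real.sin_pos_of_pos_of_lt_pi hr1 (by linarith)
  have hlt : Real.sin (Real.pi / r) < Real.cos (Real.pi / q) := by
    rw [← Real.cos_pi_div_two_sub]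
    exact Real.cos_lt_cos_of_nonneg_of_le_pi (by linarith) (by linarith) (by linarith)
  have hd : 0 ≤ Real.cos (Real.pi / q) ^ 2 + Real.cos (Real.pi / r) ^ 2 - 1 := by
    have := Real.sin_sq_add_cos_sq (Real.pi / r)
    nlinarith
  have hz : Real.cos (Real.pi / ((2 : ℕ) : ℝ)) = 0 := by
    rw [show ((2 : ℕ) : ℝ) = 2 by norm_num, Real.cos_pi_div_two]
  set b := Real.cos (Real.pi / q) with hb
  set c := Real.cos (Real.pi / r) with hc
  set z := Real.sqrt (b ^ 2 + c ^ 2 - 1) with hzd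
  have hzz : z * z = b ^ 2 + c ^ 2 - 1 := Real.mul_self_sqrt hd
  have hzc : (z : ℂ) * z = (b : ℂ) ^ 2 + (c : ℂ) ^ 2 - 1 := by exact_mod_cast congrArg (fun x : ℝ => (x : ℂ)) hzz
  refine ⟨![![-(b : ℂ), -(c : ℂ), (z : ℂ)], ![1, 0, 0], ![0, 1, 0]], ?_, ?_, ?_, ?_, ?_⟩
  · intro i
    fin_cases i
    · simp [herm]
      linear_combination -hzc
    · simp [herm]
    · simp [herm]
  · rw [hz]
    simp [herm]
  · simp [herm, abs_of_pos hcq]
    exact hb
  · simp [herm, abs_of_pos hcr]
    exact hc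
  · rw [hz]
    simp [herm]

end Pool.Agent.Work.MP_88b7aa_gt.P2
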