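import Pool.Agent.Work.MP_88b7aa_gt.CH.Dec
import Pool.Agent.Work.MP_88b7aa_gt.PQ.Dec2

/-!
# The geometric representation of a Coxeter group of rank three

`TAct`: the group acts on `X`, three real functions `f i` on `X` change under the generator `i` as the coordinates of the geometric
representation. `tits`: if all `f i x` are positive, the sign of `f i (g x)` is negative exactly if `i` is a left descent of `g`.
`nonDesc`: in the hyperbolic case no element has all three generators as left descents.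
-/

set_option autoImplicit false

namespace Pool.Agent.Work.MP_88b7aa_gt.P2

open Pool.Agent.Work.MP_88b7aa_gt.CH
open Pool.Agent.Work.MP_88b7aa_gt.PQ (Dec2)

variable {W : Type*} [Group W] {M : CoxeterMatrix (Fin 3)}

/-- An action with three functions which change as in the geometric representation. -/
structure TAct (cs : CoxeterSystem M W) {X : Type*} (act : W → X → X) (f : Fin 3 → X → ℝ) (G : Fin 3 → Fin 3 → ℝ) : Prop where
  act_one : ∀ x, act 1 x = x
  act_mul : ∀ g h x, act (g * h) x = act g (act h x)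
  rf : ∀ i j x, f j (act (cs.simple i) x) = f j x - 2 * f i x * G i j
  diag : ∀ i, G i i = 1
  off : ∀ i j, i ≠ j → G i j = -Real.cos (Real.pi / M i j)
  m2 : ∀ i j, i ≠ j → 2 ≤ M i j

variable {cs : CoxeterSystem M W} {X : Type*} {act : W → X → X} {f : Fin 3 → X → ℝ} {G : Fin 3 → Fin 3 → ℝ}

/-- The coordinates under a dihedral subgroup. -/
theorem dih (h : TAct cs act f G) (x : X) (m : ℕ) (n : ℕ) : ∀ i j : Fin 3, i ≠ j → M i j = m →
    ∃ P Q : ℝ, ((P = f i x ∧ Q = f j x) ∨ (P = f j x ∧ Q = f i x)) ∧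
      Real.sin (Real.pi / m) * f i (act (alt cs i j n) x) = -(Real.sin (n * (Real.pi / m)) * P + Real.sin ((n - 1) * (Real.pi / m)) * Q) ∧
      Real.sin (Real.pi / m) * f j (act (alt cs i j n) x) = Real.sin ((n + 1) * (Real.pi / m)) * P + Real.sin (n * (Real.pi / m)) * Q := by
  induction n with
  | zero =>
    intro i j hij hm
    refine ⟨f j x, f i x, Or.inr ⟨rfl, rfl⟩, ?_, ?_⟩
    · have e : alt cs i j 0 = 1 := by simp [alt]
      rw [e, h.act_one]
      have e2 : (((0 : ℕ) : ℝ) - 1) * (Real.pi / m) = -(Real.pi / m) := by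
        push_cast
        ring
      rw [e2, Real.sin_neg]
      simp
    · have e : alt cs i j 0 = 1 := by simp [alt]
      rw [e, h.act_one]
      simp
  | succ n ih =>
    intro i j hij hm
    obtain ⟨P, Q, hPQ, h1, h2⟩ := ih j i hij.symm (by rw [M.symmetric, hm])
    refine ⟨P, Q, hPQ.symm, ?_, ?_⟩
    · have e : act (alt cs i j (n + 1)) x = act (cs.simple i) (act (alt cs j i n) x) := by
        rw [← h.act_mul]
        rfl
      rw [e, h.rf, h.diag]
      have e2 : Real.sin (Real.pi / m) * (f i (act (alt cs j i n) x) - 2 * f i (act (alt cs j i n) x) * 1) =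
          -(Real.sin (Real.pi / m) * f i (act (alt cs j i n) x)) := by ring
      rw [e2, h2]
      have e3 : (((n + 1 : ℕ) : ℝ) - 1) = n := by
        push_cast
        ring
      rw [e3]
      push_cast
      ring
    · have e : act (alt cs i j (n + 1)) x = act (cs.simple i) (act (alt cs j i n) x) := by
        rw [← h.act_mul]
        rfl
      rw [e, h.rf, h.off i j hij, hm]
      have e2 : Real.sin (Real.pi / m) * (f j (act (alt cs j i n) x) - 2 * f i (act (alt cs j i n) x) * -Real.cos (Real.pi / m)) =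
          Real.sin (Real.pi / m) * f j (act (alt cs j i n) x) +
            2 * Real.cos (Real.pi / m) * (Real.sin (Real.pi / m) * f i (act (alt cs j i n) x)) := by ring
      rw [e2, h1, h2]
      set θ := Real.pi / m with hθ
      have s1 : Real.sin ((((n + 1 : ℕ) : ℝ) + 1) * θ) = 2 * Real.cos θ * Real.sin ((n + 1) * θ) - Real.sin (n * θ) := by
        have e4 : (((n + 1 : ℕ) : ℝ) + 1) * θ = (n + 1) * θ + θ := by
          push_cast
          ring
        have e5 : (n : ℝ) * θ = (n + 1) * θ - θ := by ring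
        rw [e4, e5, Real.sin_add, Real.sin_sub]
        ring
      have s2 : Real.sin (((n + 1 : ℕ) : ℝ) * θ) = 2 * Real.cos θ * Real.sin (n * θ) - Real.sin ((n - 1) * θ) := by
        have e4 : ((n + 1 : ℕ) : ℝ) * θ = n * θ + θ := by
          push_cast
          ring
        have e5 : ((n : ℝ) - 1) * θ = n * θ - θ := by ring
        rw [e4, e5, Real.sin_add, Real.sin_sub]
        ring
      have s3 : Real.sin (((n : ℝ) + 1) * θ) = 2 * Real.cos θ * Real.sin (n * θ) - Real.sin ((n - 1) * θ) := by
        rw [← s2]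
        push_cast
        rfl
      rw [s1]
      have s4 : Real.sin (((n + 1 : ℕ) : ℝ) * θ) = Real.sin (((n : ℝ) + 1) * θ) := by
        push_cast
        rfl
      rw [s4]
      linear_combination -Q * s3

/-- The signs under a dihedral subgroup. -/
theorem dih_sgn (h : TAct cs act f G) (x : X) {i j : Fin 3} (hij : i ≠ j) (hi : 0 < f i x) (hj : 0 < f j x) {n : ℕ} (h1 : 1 ≤ n)
    (h2 : n ≤ M i j) : f i (act (alt cs i j n) x) < 0 ∧ (n + 1 ≤ M i j → 0 < f j (act (alt cs i j n) x)) := by
  obtain ⟨P, Q, hPQ, e1, e2⟩ := dih h x (M i j) n i j hij rfl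
  have hP : 0 < P := by rcases hPQ with ⟨h, _⟩ | ⟨h, _⟩ <;> rw [h] <;> assumption
  have hQ : 0 < Q := by rcases hPQ with ⟨_, h⟩ | ⟨_, h⟩ <;> rw [h] <;> assumption
  have hm := h.m2 i j hij
  have hpi := Real.pi_pos
  have hm0 : (0 : ℝ) < (M i j : ℝ) := by
    have : 0 < M i j := by omega
    exact_mod_cast this
  have hθ : 0 < Real.pi / (M i j : ℝ) := by positivity
  have hmθ : (M i j : ℝ) * (Real.pi / (M i j : ℝ)) = Real.pi := by field_simp
  have sp : ∀ k : ℕ, 1 ≤ k → k < M i j → 0 < Real.sin (k * (Real.pi / (M i j : ℝ))) := by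
    intro k hk hk2
    apply Real.sin_pos_of_pos_of_lt_pi
    · have : (0 : ℝ) < k := by exact_mod_cast hk
      positivity
    · have : (k : ℝ) < (M i j : ℝ) := by exact_mod_cast hk2
      calc (k : ℝ) * (Real.pi / (M i j : ℝ)) < (M i j : ℝ) * (Real.pi / (M i j : ℝ)) := by nlinarith
        _ = Real.pi := hmθ
  have sn : ∀ k : ℕ, k ≤ M i j → 0 ≤ Real.sin (k * (Real.pi / (M i j : ℝ))) := by
    intro k hk
    apply Real.sin_nonneg_of_nonneg_of_le_pi
    · positivity
    · have : (k : ℝ) ≤ (M i j : ℝ) := by exact_mod_cast hk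
      calc (k : ℝ) * (Real.pi / (M i j : ℝ)) ≤ (M i j : ℝ) * (Real.pi / (M i j : ℝ)) := by nlinarith
        _ = Real.pi := hmθ
  have hs : 0 < Real.sin (Real.pi / (M i j : ℝ)) := by
    have := sp 1 le_rfl (by omega)
    simpa using this
  constructor
  · have hpos : 0 < Real.sin (n * (Real.pi / (M i j : ℝ))) * P + Real.sin ((n - 1) * (Real.pi / (M i j : ℝ))) * Q := by
      have c1 : ((n : ℝ) - 1) = ((n - 1 : ℕ) : ℝ) := by
        rw [Nat.cast_sub h1]
        simp
      rw [c1]
      rcases Nat.lt_or_ge n (M i j) with h3 | h3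
      · have := sp n h1 h3
        have := sn (n - 1) (by omega)
        nlinarith
      · have := sn n h2
        have := sp (n - 1) (by omega) (by omega)
        nlinarith
    by_contra hc
    push Not at hc
    nlinarith
  · intro h3
    have hpos : 0 < Real.sin ((n + 1) * (Real.pi / (M i j : ℝ))) * P + Real.sin (n * (Real.pi / (M i j : ℝ))) * Q := by
      have c1 : ((n : ℝ) + 1) = ((n + 1 : ℕ) : ℝ) := by
        push_cast
        rfl
      rw [c1]
      have := sp n h1 (by omega)
      have := sn (n + 1) h3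
      nlinarith
    by_contra hc
    push Not at hc
    nlinarith

/-- **The sign of the coordinates.** -/
theorem tits (h : TAct cs act f G) (x : X) (hx : ∀ i, 0 < f i x) (g : W) : ∀ i, (cs.IsLeftDescent g i → f i (act g x) < 0) ∧
    (¬ cs.IsLeftDescent g i → 0 < f i (act g x)) := by
  induction hN : cs.length g using Nat.strong_induction_on generalizing g with
  | _ N ih =>
    subst hN
    intro i
    constructor
    · intro hi
      obtain ⟨j, hj⟩ : ∃ j : Fin 3, i ≠ j := ⟨i + 1, by clear hi; revert i; decide⟩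
      obtain ⟨n, g', hn1, hn2, hg, hl, hj', hi'⟩ := Dec2 cs j i (h.m2 j i hj.symm) g hi
      rw [M.symmetric j i] at hn2
      have h1 := (ih (cs.length g') (by omega) g' rfl i).2 hi'
      have h2 := (ih (cs.length g') (by omega) g' rfl j).2 hj'
      rw [hg, h.act_mul]
      exact (dih_sgn h (act g' x) hj h1 h2 hn1 hn2).1
    · intro hi
      by_cases hg1 : g = 1
      · rw [hg1, h.act_one]
        exact hx i
      · obtain ⟨k, hk⟩ := cs.exists_leftDescent_of_ne_one hg1
        have hik : i ≠ k := by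
          rintro rfl
          exact hi hk
        obtain ⟨n, g', hn1, hn2, hg, hl, hi', hk'⟩ := Dec cs i k hik (h.m2 i k hik) g hi hk
        rw [M.symmetric i k] at hn2
        have h1 := (ih (cs.length g') (by omega) g' rfl i).2 hi'
        have h2 := (ih (cs.length g') (by omega) g' rfl k).2 hk'
        rw [hg, h.act_mul]
        exact (dih_sgn h (act g' x) hik.symm h2 h1 hn1 (by omega)).2 hn2

/-- The difference is a nonnegative combination of the rows. -/
theorem dif (h : TAct cs act f G) (x : X) (hx : ∀ i, 0 < f i x) (g : W) : ∃ κ : Fin 3 → ℝ, (∀ k, 0 ≤ κ k) ∧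
    ∀ j, f j x - f j (act g x) = κ 0 * G 0 j + κ 1 * G 1 j + κ 2 * G 2 j := by
  induction hN : cs.length g using Nat.strong_induction_on generalizing g with
  | _ N ih =>
    subst hN
    by_cases hg1 : g = 1
    · refine ⟨fun _ => 0, fun _ => le_rfl, fun j => ?_⟩
      rw [hg1, h.act_one]
      ring
    · obtain ⟨i, hi⟩ := cs.exists_leftDescent_of_ne_one hg1
      have hi2 := cs.isLeftDescent_iff.mp hi
      obtain ⟨κ, hκ, e⟩ := ih (cs.length (cs.simple i * g)) (by omega) (cs.simple i * g) rfl
      have hn : ¬ cs.IsLeftDescent (cs.simple i * g) i := by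
        unfold CoxeterSystem.IsLeftDescent
        rw [cs.simple_mul_simple_cancel_left]
        omega
      have hp := (tits h x hx (cs.simple i * g) i).2 hn
      have eg : act g x = act (cs.simple i) (act (cs.simple i * g) x) := by
        rw [← h.act_mul, cs.simple_mul_simple_cancel_left]
      refine ⟨fun k => κ k + if k = i then 2 * f i (act (cs.simple i * g) x) else 0, fun k => ?_, fun j => ?_⟩
      · have := hκ k
        dsimp only
        split_ifs <;> linarith
      · rw [eg, h.rf]
        have e' := e j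
        have key : (if (0 : Fin 3) = i then 2 * f i (act (cs.simple i * g) x) else 0) * G 0 j +
            (if (1 : Fin 3) = i then 2 * f i (act (cs.simple i * g) x) else 0) * G 1 j +
            (if (2 : Fin 3) = i then 2 * f i (act (cs.simple i * g) x) else 0) * G 2 j =
            2 * f i (act (cs.simple i * g) x) * G i j := by
          fin_cases i <;> simp
        linear_combination e' - key

/-- The hyperbolic case: there is a generator which is not a left descent. -/
theorem nonDesc (h : TAct cs act f G) (x : X) (hx : ∀ i, 0 < f i x) {a b c : ℝ} (ha : 0 ≤ a) (hb : 0 ≤ b) (hc : 0 ≤ c)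
    (ha1 : a < 1) (hb1 : b < 1) (hc1 : c < 1) (g01 : G 0 1 = -b) (g10 : G 1 0 = -b) (g12 : G 1 2 = -a) (g21 : G 2 1 = -a)
    (g20 : G 2 0 = -c) (g02 : G 0 2 = -c) (hd : 1 - a ^ 2 - b ^ 2 - c ^ 2 - 2 * a * b * c < 0) (g : W) :
    ∃ i, ¬ cs.IsLeftDescent g i := by
  by_contra hcon
  push Not at hcon
  have hn : ∀ i, f i (act g x) < 0 := fun i => (tits h x hx g i).1 (hcon i)
  obtain ⟨κ, hκ, e⟩ := dif h x hx g
  have e0 := e 0
  have e1 := e 1
  have e2 := e 2
  rw [h.diag, g10, g20] at e0
  rw [h.diag, g01, g21] at e1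
  rw [h.diag, g02, g12] at e2
  have x0 := hx 0
  have x1 := hx 1
  have x2 := hx 2
  have y0 := hn 0
  have y1 := hn 1
  have y2 := hn 2
  have k0 := hκ 0
  have k1 := hκ 1
  have k2 := hκ 2
  -- the form with the adjugate matrix
  have c00 : 0 < 1 - a ^ 2 := by nlinarith
  have c11 : 0 < 1 - c ^ 2 := by nlinarith
  have c22 : 0 < 1 - b ^ 2 := by nlinarith
  have c01 : 0 ≤ b + a * c := by positivity
  have c02 : 0 ≤ c + a * b := by positivity
  have c12 : 0 ≤ a + b * c := by positivity
  set D := 1 - a ^ 2 - b ^ 2 - c ^ 2 - 2 * a * b * c with hD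
  set u0 := (1 - a ^ 2) * f 0 x + (b + a * c) * f 1 x + (c + a * b) * f 2 x with hu0
  set u1 := (b + a * c) * f 0 x + (1 - c ^ 2) * f 1 x + (a + b * c) * f 2 x with hu1
  set u2 := (c + a * b) * f 0 x + (a + b * c) * f 1 x + (1 - b ^ 2) * f 2 x with hu2
  have p0 : 0 < u0 := by
    rw [hu0]
    nlinarith [mul_pos c00 x0, mul_nonneg c01 x1.le, mul_nonneg c02 x2.le]
  have p1 : 0 < u1 := by
    rw [hu1]
    nlinarith [mul_pos c11 x1, mul_nonneg c01 x0.le, mul_nonneg c12 x2.le]
  have p2 : 0 < u2 := by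
    rw [hu2]
    nlinarith [mul_pos c22 x2, mul_nonneg c02 x0.le, mul_nonneg c12 x1.le]
  have key : f 0 (act g x) * u0 + f 1 (act g x) * u1 + f 2 (act g x) * u2 =
      (f 0 x * u0 + f 1 x * u1 + f 2 x * u2) - D * (κ 0 * f 0 x + κ 1 * f 1 x + κ 2 * f 2 x) := by
    rw [hu0, hu1, hu2, hD]
    linear_combination (-(1 - a ^ 2) * f 0 x - (b + a * c) * f 1 x - (c + a * b) * f 2 x) * e0 +
      (-(b + a * c) * f 0 x - (1 - c ^ 2) * f 1 x - (a + b * c) * f 2 x) * e1 +
      (-(c + a * b) * f 0 x - (a + b * c) * f 1 x - (1 - b ^ 2) * f 2 x) * e2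
  have n1 : f 0 (act g x) * u0 + f 1 (act g x) * u1 + f 2 (act g x) * u2 < 0 := by nlinarith [mul_neg_of_neg_of_pos y0 p0, mul_neg_of_neg_of_pos y1 p1, mul_neg_of_neg_of_pos y2 p2]
  have n2 : 0 < f 0 x * u0 + f 1 x * u1 + f 2 x * u2 := by positivity
  have n3 : 0 ≤ κ 0 * f 0 x + κ 1 * f 1 x + κ 2 * f 2 x := by positivity
  nlinarith

end Pool.Agent.Work.MP_88b7aa_gt.P2
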